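import Pool.Agent.H32.BC.Ext2

set_option autoImplicit false

namespace Pool.Agent.Results.MP_4ee899_co.BoundedCodegree

open Pool.Agent.H29.Tor Pool.Agent.H32.BC

/-- Let `μ` be such that any two vertices of the finite planar triangle-free graph on `n ≥ 2`
vertices have at most `μ` common neighbours. Then there is a proper 3-colouring in which every
colour class has at most `max (n / 2) (μ (n - 3) / (μ + 1))` vertices. -/
theorem result : ∀ (V : Type) [Fintype V] (G : SimpleGraph V), IsPlanar G → G.CliqueFree 3 →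
    2 ≤ Fintype.card V → ∀ μ : ℕ, (∀ x y, x ≠ y → Nat.card {v // G.Adj x v ∧ G.Adj y v} ≤ μ) →
    ∃ c : G.Coloring (Fin 3), ∀ i, 2 * Nat.card {v // c v = i} ≤ Fintype.card V ∨
      (μ + 1) * Nat.card {v // c v = i} + 3 * μ ≤ μ * Fintype.card V := by
  intro V _ G hG h3 hn μ hμ
  obtain ⟨c, hc⟩ := main4 V G hG h3 hn
  refine ⟨c, fun i => ?_⟩
  rcases hc i with h | ⟨_, h2⟩
  · exact Or.inl h
  · exact Or.inr (h2 μ hμ)

end Pool.Agent.Results.MP_4ee899_co.BoundedCodegree
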