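import Pool.Agent.H32.BC.Ext2

set_option autoImplicit false

namespace Pool.Agent.Results.MP_4ee899_co.FewFourCycles

open Pool.Agent.H29.Tor Pool.Agent.H32.BC

/-- Every finite planar triangle-free graph on `n ≥ 2` vertices has a proper 3-colouring in which
every colour class has at most `max (n / 2) ((n - 3 + q) / 2)` vertices, with `q = N4 G / 8` the
number of 4-cycles. -/
theorem result : ∀ (V : Type) [Fintype V] (G : SimpleGraph V), IsPlanar G → G.CliqueFree 3 →
    2 ≤ Fintype.card V →
    ∃ c : G.Coloring (Fin 3), ∀ i, 2 * Nat.card {v // c v = i} ≤ Fintype.card V ∨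
      2 * Nat.card {v // c v = i} + 3 ≤ Fintype.card V + N4 G / 8 := by
  intro V _ G hG h3 hn
  obtain ⟨c, hc⟩ := main4 V G hG h3 hn
  refine ⟨c, fun i => ?_⟩
  rcases hc i with h | ⟨h1, _⟩
  · exact Or.inl h
  · exact Or.inr (by omega)

end Pool.Agent.Results.MP_4ee899_co.FewFourCycles
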