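import Pool.Agent.H61.TF.Fin

/-!
# Colour classes of triangle-free planar graphs

Every planar triangle-free graph with `n ≥ 2` vertices has a 3-colouring in which every class has at most
`max (n / 2) (n - m)` vertices, `m` the largest of `√(n + 4)`, `l` and `3 + (n - 5) / (l + 3)`, where `l` is the
largest number of vertices of degree 2 with the same neighbours.

Proof. (1) (`H61/TF/Ak`; Aksenov, Jensen and Thomassen) In a planar triangle-free graph `G` any two vertices
`p, q` get different colours in some 3-colouring. Otherwise take a smallest counterexample. Then `G + p q` is
4-critical, and by the bound `(5 n - 2) / 3` of Kostochka and Yancey for the number of its edges (`kyc`)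
and Euler's formula `G` has a suitable 4-face. As in the proof of Borodin, Kostochka, Lidicky and Yancey
two opposite vertices of it can be identified.

(2) (`H61/TF/Lf`) Let `l ≥ 2` vertices have exactly the neighbours `a, b`. By (1) for two of them there is a
3-colouring with `c a = c b`. Take one of these with minimal sum of the squares of the class sizes: a
class with more than `n / 2` vertices contains none of the `l` vertices.

(3) (`H61/TF/Ct`) Let for any `a, b` at most `l` vertices have exactly the neighbours `a, b`. Take a
3-colouring from which no vertex of the class `I` with more than `n / 2` vertices can be moved (even after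
exchanging the other two colours on some components of `G - I`). Choose for `v` in `I` neighbours
`a v, b v` of different colours in one component of `G - I`. By planarity there are at most `n - |I| - 3`
pairs `a v, b v` (`H32/BC/Gen`), each chosen by at most `l` vertices of degree 2, and at most
`2 (n - |I|) - 4` vertices of `I` have a third neighbour.

(4) (2) gives the bound if `n + 4 ≤ l ^ 2`, (3) otherwise.
-/

set_option autoImplicit false

namespace Pool.Agent.Results.MP_4ee899_co.SquareRootGap

open Pool.Agent.H29.Tor Pool.Agent.H61.TF

/-- Let `G` be a finite planar triangle-free graph on `n ≥ 2` vertices and `l` the largest number of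
vertices whose neighbours are exactly the same two vertices. There is a 3-colouring in which every class
has at most `max (n / 2) (n - m)` vertices, where `m` is the largest of the numbers `√(n + 4)`, `l` and
`3 + (n - 5) / (l + 3)`. -/
theorem result : ∀ (V : Type) [Fintype V] (G : SimpleGraph V), IsPlanar G → G.CliqueFree 3 →
    2 ≤ Fintype.card V → ∃ c : G.Coloring (Fin 3), ∀ i, (Nat.card {v // c v = i} : ℝ) ≤
      max ((Fintype.card V : ℝ) / 2) ((Fintype.card V : ℝ) -
        max (Real.sqrt (Fintype.card V + 4))
          (max (maxTwins G) (3 + ((Fintype.card V : ℝ) - 5) / (maxTwins G + 3)))) :=
  fun V _ G hG h3 hn => twin_gap V G hG h3 hn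

end Pool.Agent.Results.MP_4ee899_co.SquareRootGap
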