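import Pool.Agent.H32.BE.Raise

set_option autoImplicit false

namespace Pool.Agent.Results.MP_4ee899_co.StrongComponents

open Pool.Agent.H32.BE

/-- Let `φ` be a proper 3-colouring (colours modulo 3) of a finite graph on `n ≥ 2` vertices. Orient
every edge from the colour `i` to the colour `i + 1`. Suppose that every strongly connected
component with at least two vertices has at most half of its vertices in every colour (for example
that the orientation has no directed cycle). Then there is a proper 3-colouring with all classes of
size at most `n / 2`. -/
theorem result : ∀ (V : Type) [Fintype V] (G : SimpleGraph V) (φ : G.Coloring (Fin 3)),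
    2 ≤ Fintype.card V →
    (∀ v : V, (∀ u, Reach G φ u v → Reach G φ v u → u = v) ∨
      ∀ i, 2 * Nat.card {u // Reach G φ u v ∧ Reach G φ v u ∧ φ u = i} ≤
        Nat.card {u // Reach G φ u v ∧ Reach G φ v u}) →
    ∃ c : G.Coloring (Fin 3), ∀ i, 2 * Nat.card {v // c v = i} ≤ Fintype.card V := by
  intro V _ G φ hn h
  classical
  obtain ⟨c, hc, hcard⟩ := raise G hn φ (fun u v huv => φ.valid huv) (by
    intro v K hK
    rcases h v with h1 | h1
    · left
      rw [Finset.card_eq_one]
      refine ⟨v, ?_⟩
      ext u
      rw [hK, Finset.mem_singleton]
      constructor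
      · exact fun h2 => h1 u h2.1 h2.2
      · rintro rfl
        exact ⟨Relation.ReflTransGen.refl, Relation.ReflTransGen.refl⟩
    · right
      intro i
      have e1 : Nat.card {u // Reach G φ u v ∧ Reach G φ v u} = K.card := by
        rw [Nat.card_eq_fintype_card, Fintype.card_subtype]
        congr 1
        ext u
        rw [Finset.mem_filter, hK]
        simp
      have e2 : Nat.card {u // Reach G φ u v ∧ Reach G φ v u ∧ φ u = i} = cn φ K i := by
        rw [Nat.card_eq_fintype_card, Fintype.card_subtype]
        unfold cn
        congr 1
        ext u
        rw [Finset.mem_filter, Finset.mem_filter, hK]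
        simp [and_assoc]
      have h2 := h1 i
      rw [e1, e2] at h2
      exact h2)
  refine ⟨SimpleGraph.Coloring.mk c (fun {u v} huv => hc u v huv), fun i => ?_⟩
  have e : Nat.card {v // c v = i} = cn c Finset.univ i := by
    rw [Nat.card_eq_fintype_card, Fintype.card_subtype]
    rfl
  change 2 * Nat.card {v // c v = i} ≤ Fintype.card V
  rw [e]
  exact hcard i

end Pool.Agent.Results.MP_4ee899_co.StrongComponents
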